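import Pool.Agent.Y993.HP.Stm

/-! Project HP: the relative order of the points in the box is uniform (job HP-EXCH, helper994). -/

set_option autoImplicit false

namespace Pool.Agent.Y994.HP

open Finset Pool.Agent.Y993.HP

/-! ## longest chains in terms of indices -/

/-- chain of indices for a relation -/
def chI {r : ℕ} (R : Fin r → Fin r → Prop) (S : Finset (Fin r)) : Prop :=
  ∀ a ∈ S, ∀ b ∈ S, a ≠ b → R a b ∨ R b a

open Classical in
/-- longest chain of indices -/
noncomputable def lgI {r : ℕ} (R : Fin r → Fin r → Prop) : ℕ :=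
  (Finset.univ.filter (fun S : Finset (Fin r) => chI R S)).sup Finset.card

theorem lg_image {d n N r : ℕ} (u : Lab d n N) (g : Fin r → Pt d n) (hg : Function.Injective g) :
    lg u (Finset.univ.image g) = lgI (fun a b => ∀ i, u (i, g a i) < u (i, g b i)) := by
  classical
  unfold lg lgI
  apply le_antisymm
  · apply Finset.sup_le
    intro C hC
    rw [Finset.mem_filter, Finset.mem_powerset] at hC
    obtain ⟨hCs, hC⟩ := hC
    have hCS : C = (Finset.univ.filter (fun a => g a ∈ C)).image g := by
      ext p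
      simp only [Finset.mem_image, Finset.mem_filter, Finset.mem_univ, true_and]
      constructor
      · intro hp
        have := hCs hp
        rw [Finset.mem_image] at this
        obtain ⟨a, _, rfl⟩ := this
        exact ⟨a, hp, rfl⟩
      · rintro ⟨a, ha, rfl⟩
        exact ha
    have hcard : C.card = (Finset.univ.filter (fun a => g a ∈ C)).card := by
      conv_lhs => rw [hCS]
      exact Finset.card_image_of_injective _ hg
    rw [hcard]
    apply Finset.le_sup (f := Finset.card)
    rw [Finset.mem_filter]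
    refine ⟨Finset.mem_univ _, ?_⟩
    intro a ha b hb hab
    rw [Finset.mem_filter] at ha hb
    exact hC _ ha.2 _ hb.2 (fun h => hab (hg h))
  · apply Finset.sup_le
    intro S hS
    rw [Finset.mem_filter] at hS
    rw [← Finset.card_image_of_injective S hg]
    apply Finset.le_sup (f := Finset.card)
    rw [Finset.mem_filter, Finset.mem_powerset]
    refine ⟨Finset.image_subset_image (Finset.subset_univ _), ?_⟩
    intro p hp q hq hpq
    rw [Finset.mem_image] at hp hq
    obtain ⟨a, ha, rfl⟩ := hp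
    obtain ⟨b, hb, rfl⟩ := hq
    exact hS.2 a ha b hb (fun h => hpq (by rw [h]))

/-- rank permutation of an injective function -/
theorem exists_rank {r N : ℕ} (v : Fin r → Fin N) (hv : Function.Injective v) :
    ∃ ρ : Equiv.Perm (Fin r), ∀ a b, v a < v b ↔ ρ a < ρ b := by
  have hm : StrictMono (v ∘ Tuple.sort v) :=
    (Tuple.monotone_sort v).strictMono_of_injective (hv.comp (Tuple.sort v).injective)
  refine ⟨(Tuple.sort v)⁻¹, fun a b => ?_⟩
  have := hm.lt_iff_lt (a := (Tuple.sort v)⁻¹ a) (b := (Tuple.sort v)⁻¹ b)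
  simpa using this

/-! ## permuting labels -/

/-- labels with permuted values -/
def pl {d n N : ℕ} (σ : Fin d → Equiv.Perm (Fin n)) (u : Lab d n N) : Lab d n N :=
  fun x => u (x.1, σ x.1 x.2)

theorem pl_inv {d n N : ℕ} (σ : Fin d → Equiv.Perm (Fin n)) (u : Lab d n N) :
    pl (fun i => (σ i)⁻¹) (pl σ u) = u := by
  funext x
  simp [pl]

theorem pl_inv' {d n N : ℕ} (σ : Fin d → Equiv.Perm (Fin n)) (u : Lab d n N) :
    pl σ (pl (fun i => (σ i)⁻¹) u) = u := by
  funext x
  simp [pl]

/-- the bijection of labels -/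
def plE {d n : ℕ} (N : ℕ) (σ : Fin d → Equiv.Perm (Fin n)) : Lab d n N ≃ Lab d n N where
  toFun := pl σ
  invFun := pl (fun i => (σ i)⁻¹)
  left_inv := pl_inv σ
  right_inv := pl_inv' σ

open Classical in
theorem pts_pl {d n N : ℕ} (A T : Finset (Pt d n)) (I : Fin d → Finset (Fin N))
    (σ : Fin d → Equiv.Perm (Fin n))
    (hσ : ∀ i x, σ i x = x ∨ (x ∈ T.image (fun p => p i) ∧ σ i x ∈ T.image (fun p => p i)))
    (u : Lab d n N) (h : pts A I u = T) : pts A I (pl σ u) = T := by
  classical
  have hV : ∀ i x, x ∈ T.image (fun p => p i) → u (i, x) ∈ I i := by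
    intro i x hx
    rw [Finset.mem_image] at hx
    obtain ⟨p, hp, rfl⟩ := hx
    rw [← h] at hp
    unfold pts at hp
    rw [Finset.mem_filter] at hp
    exact hp.2 i
  have hiff : ∀ i x, pl σ u (i, x) ∈ I i ↔ u (i, x) ∈ I i := by
    intro i x
    show u (i, σ i x) ∈ I i ↔ _
    rcases hσ i x with h1 | ⟨h1, h2⟩
    · rw [h1]
    · exact ⟨fun _ => hV i x h1, fun _ => hV i _ h2⟩
  rw [← h]
  unfold pts
  apply Finset.filter_congr
  intro p _
  exact forall_congr' (fun i => hiff i (p i))

theorem noTie_pl {d n N : ℕ} (σ : Fin d → Equiv.Perm (Fin n)) (u : Lab d n N) (h : NoTie u) :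
    NoTie (pl σ u) := by
  intro i
  exact (h i).comp (σ i).injective

open Classical in
theorem event_pl {d n N : ℕ} (A T : Finset (Pt d n)) (I : Fin d → Finset (Fin N))
    (σ : Fin d → Equiv.Perm (Fin n))
    (hσ : ∀ i x, σ i x = x ∨ (x ∈ T.image (fun p => p i) ∧ σ i x ∈ T.image (fun p => p i)))
    (u : Lab d n N) :
    (pts A I (pl σ u) = T ∧ NoTie (pl σ u)) ↔ (pts A I u = T ∧ NoTie u) := by
  constructor
  · rintro ⟨h1, h2⟩
    have hσ' : ∀ i x, (σ i)⁻¹ x = x ∨
        (x ∈ T.image (fun p => p i) ∧ (σ i)⁻¹ x ∈ T.image (fun p => p i)) := by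
      intro i x
      rcases hσ i ((σ i)⁻¹ x) with h3 | ⟨h3, h4⟩
      · left
        rw [← h3]
        simp
      · right
        refine ⟨by simpa using h4, h3⟩
    have h3 := pts_pl A T I (fun i => (σ i)⁻¹) hσ' _ h1
    have h4 := noTie_pl (fun i => (σ i)⁻¹) _ h2
    rw [pl_inv] at h3 h4
    exact ⟨h3, h4⟩
  · rintro ⟨h1, h2⟩
    exact ⟨pts_pl A T I σ hσ u h1, noTie_pl σ u h2⟩

/-- for one set of labels the mean over the relabellings is the universal mean -/
theorem sum_lg {d n N L r : ℕ} (hd : 1 ≤ d) (u : Lab d n N) (hu : NoTie u) (g : Fin r → Pt d n)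
    (hgi : ∀ i, Function.Injective (fun a => g a i)) (hg : Function.Injective g)
    (σ : (Fin d → Equiv.Perm (Fin r)) → Fin d → Equiv.Perm (Fin n))
    (hσ : ∀ s i a, σ s i (g a i) = g (s i a) i) :
    ∑ s : Fin d → Equiv.Perm (Fin r),
      ((min (lg (pl (σ s) u) (Finset.univ.image g)) L : ℕ) : ℝ) =
    (Fintype.card (Fin d → Equiv.Perm (Fin r)) : ℝ) * eL d L r := by
  classical
  have hρ : ∀ i : Fin d, ∃ ρ : Equiv.Perm (Fin r), ∀ a b, u (i, g a i) < u (i, g b i) ↔ ρ a < ρ b :=
    fun i => exists_rank (fun a => u (i, g a i)) (fun a b hab => hgi i (hu i hab))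
  choose ρ hρ using hρ
  have hc : (Fintype.card (Fin d → Equiv.Perm (Fin r)) : ℝ) ≠ 0 := by
    have : 0 < Fintype.card (Fin d → Equiv.Perm (Fin r)) := Fintype.card_pos
    exact_mod_cast this.ne'
  unfold eL Ex
  rw [mul_div_cancel₀ _ hc]
  refine Eq.trans ?_ (Equiv.sum_comp (Equiv.mulLeft ρ)
    (fun s : Fin d → Equiv.Perm (Fin r) => ((min (lg (fun x : Fin d × Fin r => s x.1 x.2)
      (Finset.univ.image (fun a : Fin r => (fun _ : Fin d => a)))) L : ℕ) : ℝ)))
  refine Finset.sum_congr rfl (fun s _ => ?_)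
  have hdiag : Function.Injective (fun a : Fin r => (fun _ : Fin d => a)) := by
    intro a b hab
    exact congrFun hab ⟨0, hd⟩
  have h1 := lg_image (pl (σ s) u) g hg
  have h2 := lg_image (N := r) (fun x : Fin d × Fin r => (Equiv.mulLeft ρ s) x.1 x.2)
    (fun a : Fin r => (fun _ : Fin d => a)) hdiag
  rw [h1, h2]
  congr 3
  funext a b
  apply propext
  apply forall_congr'
  intro i
  show u (i, σ s i (g a i)) < u (i, σ s i (g b i)) ↔ ρ i (s i a) < ρ i (s i b)
  rw [hσ, hσ]
  exact hρ i _ _

open Classical in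
theorem key {d n N L : ℕ} (hd : 1 ≤ d) (A T : Finset (Pt d n)) (I : Fin d → Finset (Fin N))
    (hT : Gen T) :
    ∑ u : Lab d n N, (if pts A I u = T ∧ NoTie u then ((min (lg u T) L : ℕ) : ℝ) else 0) =
    ∑ u : Lab d n N, (if pts A I u = T ∧ NoTie u then eL d L T.card else 0) := by
  classical
  set r := T.card with hr
  let g : Fin r → Pt d n := fun a => (T.equivFin.symm a : Pt d n)
  have hg : Function.Injective g := fun a b hab => T.equivFin.symm.injective (Subtype.ext hab)
  have hgT : ∀ a, g a ∈ T := fun a => (T.equivFin.symm a).2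
  have himg : Finset.univ.image g = T := by
    ext p
    rw [Finset.mem_image]
    constructor
    · rintro ⟨a, _, rfl⟩
      exact hgT a
    · intro hp
      exact ⟨T.equivFin ⟨p, hp⟩, Finset.mem_univ _, by simp [g]⟩
  have hgi : ∀ i, Function.Injective (fun a => g a i) := by
    intro i a b hab
    by_contra hne
    exact hT (g a) (hgT a) (g b) (hgT b) (fun h => hne (hg h)) i hab
  let σ : (Fin d → Equiv.Perm (Fin r)) → Fin d → Equiv.Perm (Fin n) := fun s i =>
    (s i).viaFintypeEmbedding ⟨fun a => g a i, hgi i⟩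
  have hσ : ∀ s i a, σ s i (g a i) = g (s i a) i := by
    intro s i a
    exact (s i).viaFintypeEmbedding_apply_image ⟨fun a => g a i, hgi i⟩ a
  have hσ' : ∀ s i x, σ s i x = x ∨
      (x ∈ T.image (fun p => p i) ∧ σ s i x ∈ T.image (fun p => p i)) := by
    intro s i x
    by_cases hx : x ∈ Set.range (⟨fun a => g a i, hgi i⟩ : Fin r ↪ Fin n)
    · right
      obtain ⟨a, rfl⟩ := hx
      refine ⟨Finset.mem_image.2 ⟨g a, hgT a, rfl⟩, ?_⟩
      show σ s i (g a i) ∈ _
      rw [hσ]
      exact Finset.mem_image.2 ⟨g (s i a), hgT _, rfl⟩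
    · left
      exact (s i).viaFintypeEmbedding_apply_notMem_range _ hx
  have hc : (Fintype.card (Fin d → Equiv.Perm (Fin r)) : ℝ) ≠ 0 := by
    have : 0 < Fintype.card (Fin d → Equiv.Perm (Fin r)) := Fintype.card_pos
    exact_mod_cast this.ne'
  have h1 : ∀ s : Fin d → Equiv.Perm (Fin r),
      ∑ u : Lab d n N, (if pts A I u = T ∧ NoTie u then ((min (lg u T) L : ℕ) : ℝ) else 0) =
      ∑ u : Lab d n N,
        (if pts A I u = T ∧ NoTie u then ((min (lg (pl (σ s) u) T) L : ℕ) : ℝ) else 0) := by
    intro s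
    rw [← (plE N (σ s)).sum_comp]
    refine Finset.sum_congr rfl (fun u _ => ?_)
    show (if pts A I (pl (σ s) u) = T ∧ NoTie (pl (σ s) u) then _ else _) = _
    simp only [event_pl A T I (σ s) (hσ' s) u]
    rfl
  have h2 : (Fintype.card (Fin d → Equiv.Perm (Fin r)) : ℝ) *
      ∑ u : Lab d n N, (if pts A I u = T ∧ NoTie u then ((min (lg u T) L : ℕ) : ℝ) else 0) =
      (Fintype.card (Fin d → Equiv.Perm (Fin r)) : ℝ) *
      ∑ u : Lab d n N, (if pts A I u = T ∧ NoTie u then eL d L r else 0) := by
    calc (Fintype.card (Fin d → Equiv.Perm (Fin r)) : ℝ) *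
      ∑ u : Lab d n N, (if pts A I u = T ∧ NoTie u then ((min (lg u T) L : ℕ) : ℝ) else 0)
        = ∑ _s : Fin d → Equiv.Perm (Fin r), ∑ u : Lab d n N,
          (if pts A I u = T ∧ NoTie u then ((min (lg u T) L : ℕ) : ℝ) else 0) := by
          rw [Finset.sum_const, Finset.card_univ, nsmul_eq_mul]
      _ = ∑ s : Fin d → Equiv.Perm (Fin r), ∑ u : Lab d n N,
          (if pts A I u = T ∧ NoTie u then ((min (lg (pl (σ s) u) T) L : ℕ) : ℝ) else 0) :=
          Finset.sum_congr rfl (fun s _ => h1 s)
      _ = ∑ u : Lab d n N, ∑ s : Fin d → Equiv.Perm (Fin r),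
          (if pts A I u = T ∧ NoTie u then ((min (lg (pl (σ s) u) T) L : ℕ) : ℝ) else 0) :=
          Finset.sum_comm
      _ = ∑ u : Lab d n N, (Fintype.card (Fin d → Equiv.Perm (Fin r)) : ℝ) *
            (if pts A I u = T ∧ NoTie u then eL d L r else 0) := by
          refine Finset.sum_congr rfl (fun u _ => ?_)
          by_cases hu : pts A I u = T ∧ NoTie u
          · simp only [hu, and_self, if_true]
            have := sum_lg (L := L) hd u hu.2 g hgi hg σ hσ
            rw [himg] at this
            exact this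
          · simp only [hu, if_false, mul_zero, Finset.sum_const_zero]
      _ = _ := by rw [Finset.mul_sum]
  exact mul_left_cancel₀ hc h2

theorem exch1 : S_EXCH := by
  classical
  intro d n N L A I hd _
  unfold Ex
  congr 1
  rw [← Finset.sum_fiberwise Finset.univ (fun u : Lab d n N => pts A I u)]
  conv_rhs => rw [← Finset.sum_fiberwise Finset.univ (fun u : Lab d n N => pts A I u)]
  refine Finset.sum_congr rfl (fun T _ => ?_)
  rw [Finset.sum_filter, Finset.sum_filter]
  by_cases hT : Gen T
  · have hk := key (L := L) hd A T I hT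
    convert hk using 2 with u _ u _
    · by_cases h1 : pts A I u = T
      · simp only [h1, hT, true_and, if_true, zz]
      · simp only [h1, false_and, if_false]
    · by_cases h1 : pts A I u = T
      · simp only [h1, hT, true_and, if_true]
      · simp only [h1, false_and, if_false]
  · refine Finset.sum_congr rfl (fun u _ => ?_)
    by_cases h1 : pts A I u = T
    · simp only [h1, hT, false_and, if_false]
    · simp only [h1, if_false]

end Pool.Agent.Y994.HP
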